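import Pool.Agent.Helper38.MC.ADefs
import Pool.Agent.Helper38.MC.Hit

/-!
Blocks P1a, P1 of the all-arities staircase: hitting disjoint small sets.
-/

set_option autoImplicit false

namespace Pool.Agent.Helper83.AA

open FirstOrder Pool.Agent.Helper20.Spectra Pool.Agent.Helper58.QD Pool.Agent.Helper38.MC

/-- P1a with `1 ≤ l` -/
theorem p1a (V ι : Type) [Fintype V] [Fintype ι] (l t : ℕ) (hl : 1 ≤ l) (r : ℕ) :
    ∀ (e : ι → Fin (l ^ r) → Finset V), (∀ a i j, i ≠ j → Disjoint (e a i) (e a j)) →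
    (∀ a i, (e a i).card ≤ r) →
    Fintype.card ι * l ^ r * (Fintype.card V - l) ^ t < Fintype.card V ^ t →
    ∃ P : Finset V, P.card ≤ r * t ∧ ∀ a, ∃ i, e a i ⊆ P := by
  classical
  induction r with
  | zero =>
    intro e _ hc _
    refine ⟨∅, by simp, fun a => ⟨⟨0, by simp⟩, ?_⟩⟩
    have h1 := hc a ⟨0, by simp⟩
    rw [Finset.subset_empty, ← Finset.card_eq_zero]
    omega
  | succ r ih =>
    intro e hd hc hN
    let φ : Fin (l ^ r) × Fin l ≃ Fin (l ^ (r + 1)) :=
      finProdFinEquiv.trans (finCongr (pow_succ l r).symm)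
    have hφ : ∀ i b b', b ≠ b' → φ (i, b) ≠ φ (i, b') := by
      intro i b b' hb h
      have := φ.injective h
      rw [Prod.mk.injEq] at this
      exact hb this.2
    have hφ' : ∀ i i' b b', i ≠ i' → φ (i, b) ≠ φ (i', b') := by
      intro i i' b b' hi h
      have := φ.injective h
      rw [Prod.mk.injEq] at this
      exact hi this.1
    -- the families without an empty member
    let fam : Finset (ι × Fin (l ^ r)) :=
      Finset.univ.filter fun x => ∀ b, (e x.1 (φ (x.2, b))).Nonempty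
    have hpt : ∀ x : ι × Fin (l ^ r), ∃ D : Finset V, x ∈ fam →
        l ≤ D.card ∧ ∀ p ∈ D, ∃ b, p ∈ e x.1 (φ (x.2, b)) := by
      intro x
      by_cases hx : x ∈ fam
      · have hx' := (Finset.mem_filter.1 hx).2
        choose y hy using hx'
        refine ⟨Finset.univ.image y, fun _ => ⟨?_, ?_⟩⟩
        · rw [Finset.card_image_of_injective]
          · simp
          · intro b b' hb
            by_contra hne
            exact Finset.disjoint_left.1 (hd x.1 _ _ (hφ x.2 b b' hne)) (hy b) (hb ▸ hy b')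
        · intro p hp
          obtain ⟨b, _, rfl⟩ := Finset.mem_image.1 hp
          exact ⟨b, hy b⟩
      · exact ⟨∅, fun h => absurd h hx⟩
    choose D hD using hpt
    have hlr : 1 ≤ l ^ r := Nat.one_le_pow _ _ hl
    have hN' : Fintype.card ι * l ^ r * (Fintype.card V - l) ^ t < Fintype.card V ^ t := by
      refine lt_of_le_of_lt (Nat.mul_le_mul_right _ (Nat.mul_le_mul_left _ ?_)) hN
      rw [pow_succ]
      exact Nat.le_mul_of_pos_right _ hl
    obtain ⟨P1, hP1, hP1h⟩ := hit_family D l t fam (fun x hx => (hD x hx).1) (by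
      refine lt_of_le_of_lt (Nat.mul_le_mul_right _ ?_) hN'
      refine (Finset.card_le_univ _).trans ?_
      rw [Fintype.card_prod, Fintype.card_fin])
    have hb : ∀ x : ι × Fin (l ^ r), ∃ b, (e x.1 (φ (x.2, b)) \ P1).card ≤ r := by
      intro x
      by_cases hx : x ∈ fam
      · obtain ⟨p, hp, hpD⟩ := hP1h x hx
        obtain ⟨b, hb⟩ := (hD x hx).2 p hpD
        refine ⟨b, ?_⟩
        have h1 : e x.1 (φ (x.2, b)) \ P1 ⊆ (e x.1 (φ (x.2, b))).erase p := by
          intro w hw
          rw [Finset.mem_sdiff] at hw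
          rw [Finset.mem_erase]
          refine ⟨?_, hw.1⟩
          rintro rfl
          exact hw.2 hp
        have h2 := Finset.card_le_card h1
        rw [Finset.card_erase_of_mem hb] at h2
        have h3 := hc x.1 (φ (x.2, b))
        omega
      · have hx' : ¬ ∀ b, (e x.1 (φ (x.2, b))).Nonempty := fun h =>
          hx (Finset.mem_filter.2 ⟨Finset.mem_univ _, h⟩)
        push Not at hx'
        obtain ⟨b, hb⟩ := hx'
        refine ⟨b, ?_⟩
        have h1 : e x.1 (φ (x.2, b)) = ∅ := by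
          simpa [Finset.not_nonempty_iff_eq_empty] using hb
        rw [h1]
        simp
    choose b hb using hb
    obtain ⟨P2, hP2, hP2h⟩ := ih (fun a i => e a (φ (i, b (a, i))) \ P1) (by
      intro a i j hij
      exact (hd a _ _ (hφ' i j _ _ hij)).mono Finset.sdiff_subset Finset.sdiff_subset) (by
      intro a i
      exact hb (a, i)) hN'
    refine ⟨P1 ∪ P2, ?_, fun a => ?_⟩
    · refine (Finset.card_union_le _ _).trans ?_
      have : (r + 1) * t = r * t + t := by ring
      omega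
    · obtain ⟨i, hi⟩ := hP2h a
      refine ⟨φ (i, b (a, i)), fun w hw => ?_⟩
      rw [Finset.mem_union]
      by_cases hw1 : w ∈ P1
      · exact Or.inl hw1
      · exact Or.inr (hi (Finset.mem_sdiff.2 ⟨hw, hw1⟩))

/-- a set with at most `r` elements has a code -/
lemma exists_code {V : Type} [Fintype V] (r : ℕ) (c : Finset V) (hc : c.card ≤ r) :
    ∃ f : Fin r → Option V, ∀ w, w ∈ c ↔ ∃ j, f j = some w := by
  classical
  refine ⟨fun j => if hj : (j : ℕ) < c.card then some (c.equivFin.symm ⟨j, hj⟩ : V) else none, ?_⟩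
  intro w
  constructor
  · intro hw
    have h1 := (c.equivFin ⟨w, hw⟩).2
    refine ⟨⟨c.equivFin ⟨w, hw⟩, by omega⟩, ?_⟩
    simp
  · rintro ⟨j, hj⟩
    by_cases hjc : (j : ℕ) < c.card
    · simp only [hjc, dif_pos, Option.some.injEq] at hj
      rw [← hj]
      exact (c.equivFin.symm ⟨j, hjc⟩).2
    · simp [hjc] at hj

lemma out_card {V : Type} [Fintype V] {k m : ℕ} (p : Fin m → V ⊕ Fin k) : (out p).card ≤ m := by
  classical
  have h1 : out p ⊆ (Finset.univ.image fun i => (p i).elim some fun _ => none).eraseNone := by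
    intro w hw
    obtain ⟨i, hi⟩ := (Finset.mem_filter.1 hw).2
    rw [Finset.mem_eraseNone, Finset.mem_image]
    refine ⟨i, Finset.mem_univ _, ?_⟩
    simp [hi]
  refine (Finset.card_le_card h1).trans ((Finset.card_eraseNone_le _).trans ?_)
  refine Finset.card_image_le.trans ?_
  simp

/-- P1 with `1 ≤ l` -/
theorem p1 (V : Type) [Fintype V] (S : Type) (ar : S → ℕ) (R : Interp S ar V) (r k l t : ℕ)
    (hl : 1 ≤ l) (har : ∀ s, ar s ≤ r)
    (hN : (Fintype.card V + 1) ^ (2 * k + r) * l ^ r * (Fintype.card V - l) ^ t <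
      Fintype.card V ^ t) :
    ∃ P : Finset V, P.card ≤ r * t ∧ HitP R r k l P := by
  classical
  let ι : Type := (Fin k → V) × (Fin k → V) × (Fin r → Option V)
  have hι : Fintype.card ι ≤ (Fintype.card V + 1) ^ (2 * k + r) := by
    have h1 : Fintype.card ι = Fintype.card V ^ k * (Fintype.card V ^ k *
        (Fintype.card V + 1) ^ r) := by
      simp [ι]
    rw [h1]
    have h2 : (Fintype.card V + 1) ^ (2 * k + r) = (Fintype.card V + 1) ^ k *
        ((Fintype.card V + 1) ^ k * (Fintype.card V + 1) ^ r) := by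
      rw [← pow_add, ← pow_add]
      congr 1
      ring
    rw [h2]
    have h3 : Fintype.card V ^ k ≤ (Fintype.card V + 1) ^ k := Nat.pow_le_pow_left (by omega) _
    exact Nat.mul_le_mul h3 (Nat.mul_le_mul_right _ h3)
  let Q : ι → (Fin (l ^ r) → Finset V) → Prop := fun a e =>
    (∀ i j, i ≠ j → Disjoint (e i) (e j)) ∧
    ∀ i, ∃ s p, Dis R a.1 a.2.1 s p ∧ ∀ w, w ∈ e i ↔ w ∈ out p ∧ ¬ ∃ j, a.2.2 j = some w
  have hex : ∀ a, ∃ e : Fin (l ^ r) → Finset V, (∀ i j, i ≠ j → Disjoint (e i) (e j)) ∧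
      (∀ i, (e i).card ≤ r) ∧ ((∃ e', Q a e') → Q a e) := by
    intro a
    by_cases ha : ∃ e', Q a e'
    · obtain ⟨e, he⟩ := ha
      refine ⟨e, he.1, fun i => ?_, fun _ => he⟩
      obtain ⟨s, p, -, hp⟩ := he.2 i
      have h1 : e i ⊆ out p := fun w hw => ((hp w).1 hw).1
      exact (Finset.card_le_card h1).trans ((out_card p).trans (har s))
    · exact ⟨fun _ => ∅, by simp, by simp, fun h => absurd h ha⟩
  choose e he using hex
  obtain ⟨P, hP, hPh⟩ := p1a V ι l t hl r e (fun a => (he a).1) (fun a => (he a).2.1)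
    (lt_of_le_of_lt (Nat.mul_le_mul_right _ (Nat.mul_le_mul_right _ hι)) hN)
  refine ⟨P, hP, ?_⟩
  intro u u' c hc e' hd' he'
  obtain ⟨f, hf⟩ := exists_code r c hc
  have hQ : Q (u, u', f) e' := by
    refine ⟨hd', fun i => ?_⟩
    obtain ⟨s, p, hsp, hw⟩ := he' i
    exact ⟨s, p, hsp, fun w => by rw [hw w, hf w]⟩
  have h1 := (he (u, u', f)).2.2 ⟨e', hQ⟩
  obtain ⟨i, hi⟩ := hPh (u, u', f)
  obtain ⟨s, p, hsp, hw⟩ := h1.2 i
  refine ⟨s, p, hsp, fun w hwp => ?_⟩
  by_cases hwc : w ∈ c
  · exact Or.inr hwc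
  · left
    apply hi
    rw [hw w]
    exact ⟨hwp, fun h => hwc ((hf w).2 h)⟩

end Pool.Agent.Helper83.AA
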