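import Pool.Agent.Helper38.MC.ADefs

/-!
Block P5 of the all-arities staircase: homogeneous families.
-/

set_option autoImplicit false

namespace Pool.Agent.Helper83.AA

open FirstOrder Pool.Agent.Helper20.Spectra Pool.Agent.Helper58.QD Pool.Agent.Helper38.MC
open Pool.Agent.Helper31.QD Pool.Agent.Helper40.MC

section blocks

variable {V : Type} {q t : ℕ}

open Classical in
/-- the map on the blocks -/
noncomputable def B (u : Fin q × Fin t → V) (g : Fin q → Fin q) (x : V) : V :=
  if h : ∃ p, u p = x then u (g h.choose.1, h.choose.2) else x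

lemma B_u {u : Fin q × Fin t → V} (hu : Function.Injective u) (g : Fin q → Fin q)
    (p : Fin q × Fin t) : B u g (u p) = u (g p.1, p.2) := by
  unfold B
  have h : ∃ p', u p' = u p := ⟨p, rfl⟩
  rw [dif_pos h]
  have h1 : h.choose = p := hu h.choose_spec
  rw [h1]

lemma B_off {u : Fin q × Fin t → V} (g : Fin q → Fin q) {x : V} (hx : ∀ p, u p ≠ x) :
    B u g x = x := by
  unfold B
  rw [dif_neg]
  rintro ⟨p, hp⟩
  exact hx p hp

lemma B_comp {u : Fin q × Fin t → V} (hu : Function.Injective u) (g g' : Fin q → Fin q) (x : V) :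
    B u g (B u g' x) = B u (g ∘ g') x := by
  by_cases h : ∃ p, u p = x
  · obtain ⟨p, rfl⟩ := h
    rw [B_u hu, B_u hu, B_u hu]
    rfl
  · push Not at h
    rw [B_off g' h, B_off g h, B_off _ h]

/-- `i` becomes `j` -/
def upd (i j : Fin q) (m : Fin q) : Fin q := if m = i then j else m

end blocks

theorem p5 (h3 : StmtP3) (h4 : StmtP4) : StmtP5 := by
  classical
  intro V _ S ar R r k l T q P har hP hq hT hqk hT1
  rcases h3 V (AuG R) P T k hT1 with h | ⟨F, A, hPF, hFA, hAk, hF, hA, hdich⟩
  · exact Or.inl h
  right
  have hFA' : F ⊆ A := hFA.1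
  have hcard : (A \ F).card = A.card - F.card := Finset.card_sdiff_of_subset hFA'
  have hlt : F.card < A.card := Finset.card_lt_card hFA
  obtain ⟨t, ht⟩ : ∃ t, t = (A \ F).card := ⟨_, rfl⟩
  have ht1 : 1 ≤ t := by omega
  have htk : t ≤ k := by omega
  have hmem : ∀ x, x ∈ A \ F ↔ x ∈ A ∧ x ∉ F := fun x => Finset.mem_sdiff
  -- the block
  let z : Fin t → V := fun a => ((A \ F).equivFinOfCardEq ht.symm).symm a
  have hz : ∀ a, z a ∈ A \ F := fun a => (((A \ F).equivFinOfCardEq ht.symm).symm a).2
  have hzinj : Function.Injective z := fun a b hab =>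
    ((A \ F).equivFinOfCardEq ht.symm).symm.injective (Subtype.ext hab)
  have hzsurj : ∀ x ∈ A \ F, ∃ a, z a = x := by
    intro x hx
    exact ⟨(A \ F).equivFinOfCardEq ht.symm ⟨x, hx⟩, by simp [z]⟩
  let u0 : Fin k → V := fun a => if ha : (a : ℕ) < t then z ⟨a, ha⟩ else z ⟨0, ht1⟩
  have hu0 : ∀ a, u0 a ∈ A \ F := by
    intro a
    simp only [u0]
    split_ifs
    · exact hz _
    · exact hz _
  have hu0z : ∀ a : Fin t, u0 (Fin.castLE htk a) = z a := by
    intro a
    simp [u0]
  have hAu0 : ∀ x, x ∈ A ↔ x ∈ F ∨ ∃ a, u0 a = x := by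
    intro x
    constructor
    · intro hx
      by_cases hxF : x ∈ F
      · exact Or.inl hxF
      · obtain ⟨a, ha⟩ := hzsurj x ((hmem x).2 ⟨hx, hxF⟩)
        exact Or.inr ⟨Fin.castLE htk a, by rw [hu0z, ha]⟩
    · rintro (hx | ⟨a, rfl⟩)
      · exact hFA' hx
      · exact ((hmem _).1 (hu0 a)).1
  -- disjoint translates
  obtain ⟨hh, hhG, hhd⟩ : ∃ hh : ℕ → Equiv.Perm V,
      (∀ j < q, hh j ∈ AuG R ∧ ∀ x ∈ F, hh j x = x) ∧
      ∀ j j', j < j' → j' < q → ∀ a b, hh j (z a) ≠ hh j' (z b) := by
    have key : ∀ i ≤ q, ∃ hh : ℕ → Equiv.Perm V,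
        (∀ j < i, hh j ∈ AuG R ∧ ∀ x ∈ F, hh j x = x) ∧
        ∀ j j', j < j' → j' < i → ∀ a b, hh j (z a) ≠ hh j' (z b) := by
      intro i
      induction i with
      | zero =>
        intro _
        exact ⟨fun _ => 1, fun j hj => by omega, fun j j' _ hj => by omega⟩
      | succ i ih =>
        intro hi
        obtain ⟨hh, h1, h2⟩ := ih (by omega)
        let U : Finset V := (Finset.univ : Finset (Fin i × Fin t)).image fun p => hh p.1 (z p.2)
        have hU : U.card ≤ i * t := by
          refine Finset.card_image_le.trans ?_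
          simp
        have hx0 : z ⟨0, ht1⟩ ∉ F := ((hmem _).1 (hz _)).2
        have horb := hF _ hx0
        obtain ⟨y, hy, hyU⟩ : ∃ y ∈ orb (AuG R ⊓ fixP (F : Set V)) (z ⟨0, ht1⟩), y ∉ U := by
          apply Finset.exists_mem_notMem_of_card_lt_card
          have h5 : i * t ≤ q * k := Nat.mul_le_mul (by omega) htk
          omega
        obtain ⟨h, hh', hhy⟩ := (Finset.mem_filter.1 hy).2
        have hhG : h ∈ AuG R := (Subgroup.mem_inf.1 hh').1
        have hhF : ∀ x ∈ F, h x = x := fun x hx => (Subgroup.mem_inf.1 hh').2 x hx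
        refine ⟨fun j => if j < i then hh j else h, ?_, ?_⟩
        · intro j hj
          by_cases hji : j < i
          · simp only [hji, if_true]
            exact h1 j hji
          · simp only [hji, if_false]
            exact ⟨hhG, hhF⟩
        · intro j j' hjj' hj' a b
          have hji : j < i := by omega
          simp only [hji, if_true]
          by_cases hji' : j' < i
          · simp only [hji', if_true]
            exact h2 j j' hjj' hji' a b
          · simp only [hji', if_false]
            intro hab
            -- `g = hh j ⁻¹ h`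
            have hg : (hh j)⁻¹ * h ∈ AuG R := (AuG R).mul_mem ((AuG R).inv_mem (h1 j hji).1) hhG
            have hgF : ∀ x ∈ F, ((hh j)⁻¹ * h) x = x := by
              intro x hx
              rw [Equiv.Perm.mul_apply, hhF x hx, Equiv.Perm.inv_eq_iff_eq, (h1 j hji).2 x hx]
            rcases hdich _ hg hgF with h6 | h6
            · have h7 := h6 _ ((hmem _).1 (hz ⟨0, ht1⟩)).1
              have h8 : ((hh j)⁻¹ * h) (z ⟨0, ht1⟩) ∉ F := by
                intro h9
                have h10 := hgF _ h9
                have h11 := (Equiv.injective _) h10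
                rw [h11] at h9
                exact hx0 h9
              obtain ⟨c, hc⟩ := hzsurj _ ((hmem _).2 ⟨h7, h8⟩)
              apply hyU
              refine Finset.mem_image.2 ⟨(⟨j, hji⟩, c), Finset.mem_univ _, ?_⟩
              simp only
              rw [hc, ← hhy, Equiv.Perm.mul_apply]
              simp
            · have h7 : ((hh j)⁻¹ * h) (z b) = z a := by
                rw [Equiv.Perm.mul_apply, ← hab]
                simp
              have h8 := h6 (z b) ((hmem _).1 (hz b)).1 (h7 ▸ ((hmem _).1 (hz a)).1)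
              exact ((hmem _).1 (hz b)).2 h8
    exact key q le_rfl
  let u : Fin q × Fin t → V := fun p => hh p.1 (z p.2)
  have hu : Function.Injective u := by
    rintro ⟨i, a⟩ ⟨j, b⟩ hab
    have hab' : hh i (z a) = hh j (z b) := hab
    have hij : i = j := by
      by_contra hne
      rcases lt_or_gt_of_ne (fun h => hne (Fin.ext h) : (i : ℕ) ≠ j) with h5 | h5
      · exact hhd i j h5 j.2 a b hab'
      · exact hhd j i h5 i.2 b a hab'.symm
    subst hij
    rw [hzinj ((hh i).injective hab')]
  -- replacing a block
  have hrep : ∀ (i j : Fin q) (s : S) (v : Fin (ar s) → V), (∀ b a, v b ≠ u (j, a)) →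
      (R s v ↔ R s (B u (upd i j) ∘ v)) := by
    intro i j s v hv
    let p : Fin (ar s) → V ⊕ Fin k := fun b =>
      if h : ∃ a : Fin t, u (i, a) = v b then Sum.inr (Fin.castLE htk h.choose) else Sum.inl (v b)
    have hp1 : ∀ b, (h : ∃ a : Fin t, u (i, a) = v b) → p b = Sum.inr (Fin.castLE htk h.choose) :=
      fun b h => dif_pos h
    have hp2 : ∀ b, (¬ ∃ a : Fin t, u (i, a) = v b) → p b = Sum.inl (v b) := fun b h => dif_neg h
    have h5 := h4 V S ar R r k l T P F A u0 har hP hPF hFA' hA hT hAu0 (hh i) (hhG i i.2).1 (hh j)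
      (hhG j j.2).1 (hhG i i.2).2 (hhG j j.2).2 s p (by
        intro w hw a _
        obtain ⟨b, hb⟩ := (Finset.mem_filter.1 hw).2
        have h6 : ¬ ∃ a : Fin t, u (i, a) = v b := by
          intro h7
          rw [hp1 b h7] at hb
          simp at hb
        rw [hp2 b h6, Sum.inl.injEq] at hb
        obtain ⟨c, hc⟩ := hzsurj _ (hu0 a)
        rw [← hc]
        refine ⟨fun h8 => h6 ⟨c, ?_⟩, fun h8 => hv b c ?_⟩
        · rw [hb]; exact h8
        · rw [hb]; exact h8.symm)
    have e1 : ev (hh i ∘ u0) p = v := by
      funext b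
      unfold ev
      by_cases h6 : ∃ a : Fin t, u (i, a) = v b
      · rw [hp1 b h6]
        simp only [Sum.elim_inr, Function.comp]
        rw [hu0z]
        exact h6.choose_spec
      · rw [hp2 b h6]
        rfl
    have e2 : ev (hh j ∘ u0) p = B u (upd i j) ∘ v := by
      funext b
      unfold ev
      simp only [Function.comp]
      by_cases h6 : ∃ a : Fin t, u (i, a) = v b
      · rw [hp1 b h6]
        simp only [Sum.elim_inr, Function.comp]
        rw [hu0z]
        have h7 := B_u hu (upd i j) (i, h6.choose)
        rw [h6.choose_spec] at h7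
        rw [h7]
        simp [upd, u]
      · rw [hp2 b h6]
        simp only [Sum.elim_inl, id]
        by_cases h7 : ∃ p', u p' = v b
        · obtain ⟨⟨m, a⟩, hm⟩ := h7
          have hmi : m ≠ i := by
            rintro rfl
            exact h6 ⟨a, hm⟩
          rw [← hm, B_u hu]
          simp [upd, hmi]
        · push Not at h7
          rw [B_off _ h7]
    rw [e1, e2] at h5
    exact h5
  -- swaps
  have hswap : ∀ (i j : Fin q), i ≠ j → ∀ (s : S) (v : Fin (ar s) → V),
      (R s (B u (Equiv.swap i j) ∘ v) ↔ R s v) := by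
    intro i j hij s v
    -- a third block
    obtain ⟨m, hm⟩ : ∃ m : Fin q, m ≠ i ∧ m ≠ j ∧ ∀ b a, v b ≠ u (m, a) := by
      let X : Finset (Fin q) := insert i (insert j (Finset.univ.image fun b : Fin (ar s) =>
        if h : ∃ p, u p = v b then h.choose.1 else i))
      obtain ⟨m, -, hm⟩ : ∃ m ∈ (Finset.univ : Finset (Fin q)), m ∉ X := by
        apply Finset.exists_mem_notMem_of_card_lt_card
        have h5 : X.card ≤ (insert j (Finset.univ.image fun b : Fin (ar s) =>
          if h : ∃ p, u p = v b then h.choose.1 else i)).card + 1 := Finset.card_insert_le _ _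
        have h6 := Finset.card_insert_le j (Finset.univ.image fun b : Fin (ar s) =>
          if h : ∃ p, u p = v b then h.choose.1 else i)
        have h7 : (Finset.univ.image fun b : Fin (ar s) =>
          if h : ∃ p, u p = v b then h.choose.1 else i).card ≤ ar s := by
          refine Finset.card_image_le.trans ?_
          simp
        have h8 := har s
        rw [Finset.card_univ, Fintype.card_fin]
        omega
      simp only [X, Finset.mem_insert, not_or] at hm
      refine ⟨m, hm.1, hm.2.1, fun b a hb => hm.2.2 ?_⟩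
      refine Finset.mem_image.2 ⟨b, Finset.mem_univ _, ?_⟩
      have h5 : ∃ p, u p = v b := ⟨_, hb.symm⟩
      rw [dif_pos h5]
      have h6 := hu (h5.choose_spec.trans hb)
      rw [h6]
    obtain ⟨hmi, hmj, hmv⟩ := hm
    have s1 := hrep i m s v hmv
    have s2 := hrep j i s (B u (upd i m) ∘ v) (by
      intro b a h5
      simp only [Function.comp] at h5
      by_cases h7 : ∃ p', u p' = v b
      · obtain ⟨⟨m', a'⟩, hm'⟩ := h7
        rw [← hm', B_u hu] at h5
        have h8 := congrArg Prod.fst (hu h5)
        simp only [upd] at h8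
        by_cases h9 : m' = i
        · simp only [h9, if_true] at h8
          exact hmi h8
        · simp only [h9, if_false] at h8
      · push Not at h7
        rw [B_off _ h7] at h5
        exact h7 _ h5.symm)
    have s3 := hrep m j s (B u (upd j i) ∘ (B u (upd i m) ∘ v)) (by
      intro b a h5
      simp only [Function.comp] at h5
      rw [B_comp hu] at h5
      by_cases h7 : ∃ p', u p' = v b
      · obtain ⟨⟨m', a'⟩, hm'⟩ := h7
        rw [← hm', B_u hu] at h5
        have h8 := congrArg Prod.fst (hu h5)
        simp only [upd, Function.comp] at h8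
        by_cases h9 : m' = i
        · simp only [h9, if_true, hmj, if_false] at h8
        · by_cases h10 : m' = j
          · simp only [h10, if_true, if_false, hij, hij.symm] at h8
          · simp only [h9, h10, if_false] at h8
      · push Not at h7
        rw [B_off _ h7] at h5
        exact h7 _ h5.symm)
    rw [s1, s2, s3]
    have e : (B u (Equiv.swap i j) ∘ v) =
        B u (upd m j) ∘ (B u (upd j i) ∘ (B u (upd i m) ∘ v)) := by
      funext b
      simp only [Function.comp]
      rw [B_comp hu, B_comp hu]
      by_cases h7 : ∃ p', u p' = v b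
      · obtain ⟨⟨m', a'⟩, hm'⟩ := h7
        have hm'm : m' ≠ m := by
          rintro rfl
          exact hmv b a' hm'.symm
        rw [← hm', B_u hu, B_u hu]
        congr 2
        simp only [upd, Function.comp]
        by_cases h9 : m' = i
        · subst h9
          simp [hmj]
        · by_cases h10 : m' = j
          · subst h10
            simp [h9, hmi.symm]
          · rw [Equiv.swap_apply_of_ne_of_ne h9 h10]
            simp [h9, h10, hm'm]
      · push Not at h7
        rw [B_off _ h7, B_off _ h7]
    rw [e]
  have hperm : ∀ π : Equiv.Perm (Fin q), ∀ (s : S) (v : Fin (ar s) → V),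
      (R s (B u π ∘ v) ↔ R s v) := by
    intro π
    induction π using Equiv.Perm.swap_induction_on with
    | one =>
      intro s v
      have e : (B u (⇑(1 : Equiv.Perm (Fin q))) ∘ v) = v := by
        funext b
        simp only [Function.comp]
        by_cases h7 : ∃ p', u p' = v b
        · obtain ⟨p', hp'⟩ := h7
          rw [← hp', B_u hu]
          rfl
        · push Not at h7
          rw [B_off _ h7]
      rw [e]
    | swap_mul f i j hij ih =>
      intro s v
      have e : (B u (⇑(Equiv.swap i j * f)) ∘ v) = B u (Equiv.swap i j) ∘ (B u f ∘ v) := by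
        funext b
        simp only [Function.comp]
        rw [B_comp hu]
        rfl
      rw [e, hswap i j hij, ih]
  refine ⟨t, ht1, htk, u, hu, fun π σ hσ hσ' s v => ?_⟩
  have e : (⇑σ ∘ v) = B u π ∘ v := by
    funext b
    simp only [Function.comp]
    by_cases h7 : ∃ p', u p' = v b
    · obtain ⟨⟨i, a⟩, hp'⟩ := h7
      rw [← hp', B_u hu]
      exact hσ i a
    · push Not at h7
      rw [B_off _ h7]
      exact hσ' _ h7
  rw [e]
  exact hperm π s v

end Pool.Agent.Helper83.AA
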