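import Pool.Agent.Helper40.MC.Defs

/-!
P. M. Neumann's separation lemma
-/

set_option autoImplicit false

namespace Pool.Agent.Helper83.AA

open Pool.Agent.Helper40.MC (orb fixP)

variable {V : Type} [Fintype V] [DecidableEq V]

open Classical in
/-- the elements of `H` -/
noncomputable def el (H : Subgroup (Equiv.Perm V)) : Finset (Equiv.Perm V) :=
  Finset.univ.filter fun σ => σ ∈ H

omit [DecidableEq V] in
lemma mem_orb {H : Subgroup (Equiv.Perm V)} {x y : V} : y ∈ orb H x ↔ ∃ σ ∈ H, σ x = y := by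
  simp [orb]

lemma mem_el {H : Subgroup (Equiv.Perm V)} {σ : Equiv.Perm V} : σ ∈ el H ↔ σ ∈ H := by
  simp [el]

open Classical in
lemma fib_le (H : Subgroup (Equiv.Perm V)) (x y z : V) (hy : y ∈ orb H x) :
    ((el H).filter fun σ => σ x = z).card ≤ ((el H).filter fun σ => σ x = y).card := by
  by_cases hz : ∃ σ ∈ H, σ x = z
  · obtain ⟨τ, hτ, hτz⟩ := hz
    obtain ⟨ρ, hρ, hρy⟩ := mem_orb.1 hy
    refine Finset.card_le_card_of_injOn (fun σ => ρ * τ⁻¹ * σ) ?_ ?_
    · intro σ hσ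
      rw [Finset.mem_coe, Finset.mem_filter, mem_el] at hσ ⊢
      refine ⟨H.mul_mem (H.mul_mem hρ (H.inv_mem hτ)) hσ.1, ?_⟩
      rw [Equiv.Perm.mul_apply, Equiv.Perm.mul_apply, hσ.2, ← hτz]
      simp [hρy]
    · intro σ _ σ' _ h
      exact mul_left_cancel h
  · have : ((el H).filter fun σ => σ x = z) = ∅ := by
      rw [Finset.filter_eq_empty_iff]
      intro σ hσ h
      exact hz ⟨σ, mem_el.1 hσ, h⟩
    rw [this]
    simp

open Classical in
lemma count_into (H : Subgroup (Equiv.Perm V)) (x : V) (Δ : Finset V) :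
    (orb H x).card * ((el H).filter fun σ => σ x ∈ Δ).card ≤ Δ.card * (el H).card := by
  set c := ((el H).filter fun σ => σ x = x).card with hc
  have hxx : x ∈ orb H x := mem_orb.2 ⟨1, H.one_mem, rfl⟩
  have h1 : ∀ z, ((el H).filter fun σ => σ x = z).card ≤ c := fun z => fib_le H x x z hxx
  have h2 : ∀ y ∈ orb H x, c ≤ ((el H).filter fun σ => σ x = y).card := fun y hy =>
    fib_le H x y x hy
  have h3 : (orb H x).card * c ≤ (el H).card := by
    have h4 := Finset.card_eq_sum_card_fiberwise (f := fun σ : Equiv.Perm V => σ x) (s := el H)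
      (t := orb H x) (fun σ hσ => mem_orb.2 ⟨σ, mem_el.1 hσ, rfl⟩)
    rw [h4, ← smul_eq_mul]
    exact Finset.card_nsmul_le_sum _ _ _ h2
  have h4 : ((el H).filter fun σ => σ x ∈ Δ).card ≤ Δ.card * c := by
    have h5 := Finset.card_eq_sum_card_fiberwise (f := fun σ : Equiv.Perm V => σ x)
      (s := (el H).filter fun σ => σ x ∈ Δ) (t := Δ)
      (fun σ hσ => (Finset.mem_filter.1 hσ).2)
    rw [h5, ← smul_eq_mul]
    refine Finset.sum_le_card_nsmul _ _ _ fun z _ => ?_
    refine le_trans (Finset.card_le_card ?_) (h1 z)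
    intro σ hσ
    rw [Finset.mem_filter, Finset.mem_filter] at hσ
    exact Finset.mem_filter.2 ⟨hσ.1.1, hσ.2⟩
  calc (orb H x).card * ((el H).filter fun σ => σ x ∈ Δ).card
      ≤ (orb H x).card * (Δ.card * c) := Nat.mul_le_mul_left _ h4
    _ = Δ.card * ((orb H x).card * c) := by ring
    _ ≤ Δ.card * (el H).card := Nat.mul_le_mul_left _ h3

/-- **P. M. Neumann's separation lemma** -/
theorem neumann (H : Subgroup (Equiv.Perm V)) (Γ Δ : Finset V)
    (h : ∀ x ∈ Γ, Γ.card * Δ.card < (orb H x).card) : ∃ σ ∈ H, ∀ x ∈ Γ, σ x ∉ Δ := by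
  classical
  by_contra hcon
  push Not at hcon
  have h1 : el H ⊆ Γ.biUnion fun x => (el H).filter fun σ => σ x ∈ Δ := by
    intro σ hσ
    obtain ⟨x, hx, hxΔ⟩ := hcon σ (mem_el.1 hσ)
    exact Finset.mem_biUnion.2 ⟨x, hx, Finset.mem_filter.2 ⟨hσ, hxΔ⟩⟩
  have h2 := (Finset.card_le_card h1).trans Finset.card_biUnion_le
  have h3 : (Γ.card * Δ.card + 1) * (∑ x ∈ Γ, ((el H).filter fun σ => σ x ∈ Δ).card) ≤
      Γ.card * (Δ.card * (el H).card) := by
    rw [Finset.mul_sum, ← smul_eq_mul (Γ.card)]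
    refine Finset.sum_le_card_nsmul _ _ _ fun x hx => ?_
    exact (Nat.mul_le_mul_right _ (h x hx)).trans (count_into H x Δ)
  have h4 : 0 < (el H).card := Finset.card_pos.2 ⟨1, mem_el.2 H.one_mem⟩
  have h5 : (Γ.card * Δ.card + 1) * (el H).card ≤ Γ.card * (Δ.card * (el H).card) :=
    (Nat.mul_le_mul_left _ h2).trans h3
  have h6 : (Γ.card * Δ.card + 1) * (el H).card = Γ.card * (Δ.card * (el H).card) + (el H).card := by
    ring
  omega

end Pool.Agent.Helper83.AA
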